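import Pool.Agent.H254R3.IN.Chars

/-!
# The equivalence fails for `PSL(2, q)`, `q ≡ ±3 (mod 8)`, at `p = 2`, `m = 2`
-/

set_option linter.unusedSectionVars false

open scoped BigOperators Classical Matrix MatrixGroups IntermediateField

noncomputable section

namespace Pool.Agent.Results.MP_cfb286_al.PSLTwoCounterexample

/-- The relation `∼_m` for the prime `p`: the smallest equivalence relation with `g ∼ x g x⁻¹` and
`g ∼ g h ^ (p ^ (m - 1))` whenever `h` commutes with `g` and has order a power of `p`. -/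
def Sim (p m : ℕ) {G : Type} [Group G] : G → G → Prop :=
  Relation.EqvGen fun g g' : G => (∃ x, g' = x * g * x⁻¹) ∨
    ∃ h : G, g * h = h * g ∧ (∃ k, orderOf h = p ^ k) ∧ g' = g * h ^ p ^ (m - 1)

/-- `χ` is a complex character of `G`: the character of a finite-dimensional representation. -/
def IsChar {G : Type} [Group G] (χ : G → ℂ) : Prop :=
  ∃ (V : Type) (_ : AddCommGroup V) (_ : Module ℂ V) (_ : FiniteDimensional ℂ V)
    (ρ : Representation ℂ G V), χ = ρ.character

/-- The field of values of `χ`. -/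
def valueField {G : Type} (χ : G → ℂ) : IntermediateField ℚ ℂ :=
  IntermediateField.adjoin ℚ (Set.range χ)

/-- `χ(g) ≡ χ(g') (mod p ^ m)` in the ring of algebraic integers of `ℚ(χ)`. -/
def Congr (p m : ℕ) {G : Type} (χ : G → ℂ) (g g' : G) : Prop :=
  ∃ z ∈ valueField χ, IsIntegral ℤ z ∧ χ g - χ g' = (p : ℂ) ^ m * z

variable {F : Type} [Field F] [Fintype F]

/-- in a field where `2` is not a square, a matrix of determinant one whose fourth power is scalar
has a scalar square -/
lemma sq_scalar (h2 : ¬ IsSquare (2 : F)) {A : SL(2, F)}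
    (hA : A ^ 4 ∈ Subgroup.center (SL(2, F))) : A ^ 2 ∈ Subgroup.center (SL(2, F)) := by
  rw [Matrix.SpecialLinearGroup.mem_center_iff] at hA ⊢
  obtain ⟨c, hc, hA⟩ := hA
  rw [Fintype.card_fin] at hc
  have h20 : (2 : F) ≠ 0 := by
    intro h
    exact h2 (by rw [h]; exact IsSquare.zero)
  obtain ⟨a, b, c', d, hdet, hAe⟩ : ∃ a b c' d : F, a * d - b * c' = 1 ∧
      (A : Matrix (Fin 2) (Fin 2) F) = !![a, b; c', d] := by
    refine ⟨A 0 0, A 0 1, A 1 0, A 1 1, ?_, ?_⟩
    · have := A.2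
      rw [Matrix.det_fin_two] at this
      exact this
    · ext i j
      fin_cases i <;> fin_cases j <;> rfl
  have hsq : ((A ^ 2 : SL(2, F)) : Matrix (Fin 2) (Fin 2) F) =
      !![a ^ 2 + b * c', b * (a + d); c' * (a + d), d ^ 2 + b * c'] := by
    rw [Matrix.SpecialLinearGroup.coe_pow, hAe, sq, Matrix.mul_fin_two]
    ext i j
    fin_cases i <;> fin_cases j <;> simp <;> ring
  have hfour : ((A ^ 4 : SL(2, F)) : Matrix (Fin 2) (Fin 2) F) =
      !![a ^ 2 + b * c', b * (a + d); c' * (a + d), d ^ 2 + b * c'] *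
        !![a ^ 2 + b * c', b * (a + d); c' * (a + d), d ^ 2 + b * c'] := by
    rw [← hsq, ← Matrix.SpecialLinearGroup.coe_mul, ← pow_add]
  rw [hfour, Matrix.mul_fin_two] at hA
  have e01 := congrFun (congrFun hA 0) 1
  have e10 := congrFun (congrFun hA 1) 0
  have e00 := congrFun (congrFun hA 0) 0
  have e11 := congrFun (congrFun hA 1) 1
  simp at e01 e10 e00 e11
  have ht : (a + d) ^ 2 - 2 ≠ 0 := by
    intro h
    exact h2 ⟨a + d, by linear_combination -h⟩
  have hb : b * (a + d) = 0 := by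
    have h : ((a + d) ^ 2 - 2) * (b * (a + d)) = 0 := by
      linear_combination -e01 + 2 * b * (a + d) * hdet
    exact (mul_eq_zero.mp h).resolve_left ht
  have hc' : c' * (a + d) = 0 := by
    have h : ((a + d) ^ 2 - 2) * (c' * (a + d)) = 0 := by
      linear_combination -e10 + 2 * c' * (a + d) * hdet
    exact (mul_eq_zero.mp h).resolve_left ht
  have had : (a - d) * (a + d) = 0 := by
    have h : ((a + d) ^ 2 - 2) * ((a - d) * (a + d)) = 0 := by
      linear_combination e11 - e00 + 2 * (a - d) * (a + d) * hdet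
    exact (mul_eq_zero.mp h).resolve_left ht
  refine ⟨a ^ 2 + b * c', ?_, ?_⟩
  · rw [Fintype.card_fin]
    linear_combination (a * d - b * c' + 1) * hdet + c' * (a + d) * hb + (a ^ 2 + b * c') * had
  · rw [hsq]
    ext i j
    fin_cases i <;> fin_cases j <;> simp [hb, hc']
    linear_combination had

/-- the exponent of the Sylow `2`-subgroups of `PSL(2, F)` is two if `2` is not a square -/
lemma two_el (h2 : ¬ IsSquare (2 : F)) {h : PSL(2, F)} {k : ℕ} (hk : orderOf h = 2 ^ k) :
    h ^ 2 = 1 := by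
  have key : ∀ x : PSL(2, F), x ^ 4 = 1 → x ^ 2 = 1 := by
    intro x
    obtain ⟨A, rfl⟩ := QuotientGroup.mk_surjective x
    intro hx
    rw [← QuotientGroup.mk_pow, QuotientGroup.eq_one_iff] at hx ⊢
    exact sq_scalar h2 hx
  rcases Nat.lt_or_ge k 2 with hk2 | hk2
  · have h1 : orderOf h ∣ 2 := by
      rw [hk]
      have h3 : k ≤ 1 := by omega
      exact (pow_dvd_pow 2 h3).trans (by norm_num)
    exact orderOf_dvd_iff_pow_eq_one.mp h1
  · exfalso
    obtain ⟨j, rfl⟩ : ∃ j, k = j + 2 := ⟨k - 2, by omega⟩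
    have h1 : (h ^ 2 ^ j) ^ 4 = 1 := by
      rw [← pow_mul, show 2 ^ j * 4 = 2 ^ (j + 2) by rw [pow_add]; norm_num, ← hk]
      exact pow_orderOf_eq_one h
    have h3 := key _ h1
    rw [← pow_mul, ← pow_succ, ← orderOf_dvd_iff_pow_eq_one, hk] at h3
    have h4 := (Nat.pow_dvd_pow_iff_le_right (by norm_num : 1 < 2)).mp h3
    omega

lemma sim_conj (h2 : ¬ IsSquare (2 : F)) {g g' : PSL(2, F)} (h : Sim 2 2 g g') : IsConj g g' := by
  induction h with
  | rel x y h =>
    rcases h with ⟨z, rfl⟩ | ⟨z, -, ⟨k, hk⟩, rfl⟩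
    · exact isConj_iff.mpr ⟨z, rfl⟩
    · have h1 : z ^ 2 ^ (2 - 1) = 1 := two_el h2 hk
      rw [h1, mul_one]
  | refl x => exact IsConj.refl x
  | symm x y _ ih => exact ih.symm
  | trans x y z _ _ ih1 ih2 => exact ih1.trans ih2

lemma idem_trace {V : Type} [AddCommGroup V] [Module ℂ V] [FiniteDimensional ℂ V]
    {e : Module.End ℂ V} (he : e * e = e) : ∃ n : ℕ, LinearMap.trace ℂ V e = n :=
  ⟨_, (LinearMap.IsIdempotentElem.isProj_range e he).trace⟩

/-- a Klein four-group with a fusing element gives the congruence -/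
lemma congr_of_klein {G : Type} [Group G] {i j w : G} (hi : i * i = 1) (hj : j * j = 1)
    (hij : i * j = j * i) (hwi : w * i * w⁻¹ = j) (hwj : w * j * w⁻¹ = i * j) {χ : G → ℂ}
    (hχ : IsChar χ) : Congr 2 2 χ 1 i := by
  obtain ⟨V, _, _, _, ρ, rfl⟩ := hχ
  have hI : ρ i * ρ i = 1 := by rw [← map_mul, hi, map_one]
  have hJ : ρ j * ρ j = 1 := by rw [← map_mul, hj, map_one]
  have hIJ : ρ j * ρ i = ρ i * ρ j := by rw [← map_mul, ← map_mul, hij]
  have hj' : ρ.character j = ρ.character i := by rw [← hwi]; exact ρ.char_conj i w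
  have hk' : ρ.character (i * j) = ρ.character i := by
    rw [← hwj, ρ.char_conj j w, hj']
  obtain ⟨n, hn⟩ : ∃ n : ℕ, LinearMap.trace ℂ V ((4 : ℂ)⁻¹ • (1 + ρ i + ρ j + ρ i * ρ j)) = n := by
    apply idem_trace
    have h1 : (1 + ρ i + ρ j + ρ i * ρ j) * (1 + ρ i + ρ j + ρ i * ρ j) =
        (4 : ℂ) • (1 + ρ i + ρ j + ρ i * ρ j) := by
      have e1 : ρ i * (ρ i * ρ j) = ρ j := by rw [← mul_assoc, hI, one_mul]
      have e2 : ρ j * (ρ i * ρ j) = ρ i := by rw [← mul_assoc, hIJ, mul_assoc, hJ, mul_one]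
      have e3 : ρ i * ρ j * ρ i = ρ j := by rw [mul_assoc, hIJ, e1]
      have e4 : ρ i * ρ j * ρ j = ρ i := by rw [mul_assoc, hJ, mul_one]
      have e5 : ρ i * ρ j * (ρ i * ρ j) = 1 := by rw [← mul_assoc, e3, hJ]
      simp only [mul_add, add_mul, one_mul, mul_one, hI, hJ, hIJ, e1, e2, e3, e4, e5]
      module
    rw [smul_mul_assoc, mul_smul_comm, h1, smul_smul, smul_smul]
    norm_num
  obtain ⟨m, hm⟩ : ∃ n : ℕ, LinearMap.trace ℂ V ((2 : ℂ)⁻¹ • (1 + ρ i)) = n := by
    apply idem_trace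
    have h1 : (1 + ρ i) * (1 + ρ i) = (2 : ℂ) • (1 + ρ i) := by
      simp only [mul_add, add_mul, one_mul, mul_one, hI]
      module
    rw [smul_mul_assoc, mul_smul_comm, h1, smul_smul, smul_smul]
    norm_num
  have h1 : LinearMap.trace ℂ V 1 = ρ.character 1 := by
    show _ = LinearMap.trace ℂ V (ρ 1)
    rw [map_one ρ]
  have hi' : LinearMap.trace ℂ V (ρ i) = ρ.character i := rfl
  have hjj : LinearMap.trace ℂ V (ρ j) = ρ.character i := hj'
  have hkk : LinearMap.trace ℂ V (ρ i * ρ j) = ρ.character i := by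
    rw [← hk']
    show _ = LinearMap.trace ℂ V (ρ (i * j))
    rw [map_mul ρ]
  rw [map_smul, map_add, map_add, map_add, h1, hi', hjj, hkk, smul_eq_mul] at hn
  rw [map_smul, map_add, h1, hi', smul_eq_mul] at hm
  refine ⟨((2 : ℂ) ^ 2)⁻¹ * (ρ.character 1 - ρ.character i), ?_, ?_, ?_⟩
  · refine mul_mem (inv_mem (pow_mem ?_ 2)) (sub_mem ?_ ?_)
    · exact_mod_cast natCast_mem (valueField ρ.character) 2
    · exact IntermediateField.subset_adjoin _ _ ⟨1, rfl⟩
    · exact IntermediateField.subset_adjoin _ _ ⟨i, rfl⟩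
  · have h2 : ((2 : ℂ) ^ 2)⁻¹ * (ρ.character 1 - ρ.character i) =
        (((n : ℤ) - (2 * (m : ℤ) - (Module.finrank ℂ V : ℤ)) : ℤ) : ℂ) := by
      rw [ρ.char_one] at hn hm ⊢
      push_cast
      rw [← hn, ← hm]
      ring
    rw [h2]
    exact isIntegral_algebraMap (R := ℤ)
      (x := (n : ℤ) - (2 * (m : ℤ) - (Module.finrank ℂ V : ℤ)))
  · push_cast
    ring

/-- Let `F` be a finite field with more than five elements and `|F| ≡ ±3 (mod 8)`. Then
`G = PSL(2, F)` is simple, and there are `g, g' ∈ G` with `g ≁ g'` for the relation `∼_2` at the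
prime `p = 2`, but `χ(g) ≡ χ(g') (mod 4)` for all characters `χ` of `G`. -/
theorem result (F : Type) [Field F] [Fintype F] (hF : Fintype.card F % 8 = 3 ∨ Fintype.card F % 8 = 5)
    (h5 : 5 < Fintype.card F) :
    IsSimpleGroup PSL(2, F) ∧ ringChar F ≠ 2 ∧
      ∃ g g' : PSL(2, F), ¬ Sim 2 2 g g' ∧ ∀ χ : PSL(2, F) → ℂ, IsChar χ → Congr 2 2 χ g g' := by
  have h2 : ¬ IsSquare (2 : F) := by
    rw [FiniteField.isSquare_two_iff]
    omega
  have h20 : (2 : F) ≠ 0 := by
    intro h
    exact h2 (by rw [h]; exact IsSquare.zero)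
  have hsimple : IsSimpleGroup PSL(2, F) :=
    Matrix.ProjectiveSpecialLinearGroup.rank_two_simple (by
      rw [Nat.card_eq_fintype_card]
      omega)
  have hchar : ringChar F ≠ 2 := by
    intro h
    have h1 : ((2 : ℕ) : F) = 0 := by
      rw [← h]
      exact ringChar.Nat.cast_ringChar
    exact h20 (by exact_mod_cast h1)
  refine ⟨hsimple, hchar, ?_⟩
  obtain ⟨a, b, hab⟩ : ∃ a b : F, a ^ 2 + b ^ 2 = -1 := by
    obtain ⟨a, b, hab⟩ := FiniteField.exists_root_sum_quadratic
      (f := (Polynomial.X ^ 2 : Polynomial F)) (g := Polynomial.X ^ 2 - Polynomial.C (-1))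
      (Polynomial.degree_X_pow 2) (Polynomial.degree_X_pow_sub_C (by decide) _) (by omega)
    refine ⟨a, b, ?_⟩
    simp only [Polynomial.eval_pow, Polynomial.eval_X, Polynomial.eval_sub, Polynomial.eval_C] at hab
    linear_combination hab
  obtain ⟨t, ht⟩ : ∃ t : F, 2 * t = 1 := ⟨2⁻¹, mul_inv_cancel₀ h20⟩
  let n : SL(2, F) := ⟨!![-1, 0; 0, -1], by rw [Matrix.det_fin_two_of]; ring⟩
  let i : SL(2, F) := ⟨!![0, 1; -1, 0], by rw [Matrix.det_fin_two_of]; ring⟩
  let j : SL(2, F) := ⟨!![a, b; b, -a], by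
    rw [Matrix.det_fin_two_of]; linear_combination -hab⟩
  let w : SL(2, F) := ⟨!![t * (1 + a + b), t * (1 + b - a); t * (-1 + b - a), t * (1 - a - b)], by
    rw [Matrix.det_fin_two_of]
    linear_combination (-2 * t ^ 2) * hab + (2 * t + 1) * ht⟩
  have hn : n ∈ Subgroup.center (SL(2, F)) := by
    rw [Matrix.SpecialLinearGroup.mem_center_iff]
    refine ⟨-1, by rw [Fintype.card_fin]; norm_num, ?_⟩
    ext x y
    fin_cases x <;> fin_cases y <;> simp [n]
  have ext2 : ∀ A B : SL(2, F), (A : Matrix (Fin 2) (Fin 2) F) = B → A = B := fun A B h =>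
    Subtype.ext h
  have hii : i * i = n := by
    apply ext2
    rw [Matrix.SpecialLinearGroup.coe_mul]
    show !![(0 : F), 1; -1, 0] * !![(0 : F), 1; -1, 0] = !![-1, 0; 0, -1]
    rw [Matrix.mul_fin_two]
    ext x y
    fin_cases x <;> fin_cases y <;> simp
  have hjj : j * j = n := by
    apply ext2
    rw [Matrix.SpecialLinearGroup.coe_mul]
    show !![a, b; b, -a] * !![a, b; b, -a] = !![-1, 0; 0, -1]
    rw [Matrix.mul_fin_two]
    ext x y
    fin_cases x <;> fin_cases y <;> simp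
    · linear_combination hab
    · ring
    · ring
    · linear_combination hab
  have hij : i * j = n * (j * i) := by
    apply ext2
    rw [Matrix.SpecialLinearGroup.coe_mul, Matrix.SpecialLinearGroup.coe_mul,
      Matrix.SpecialLinearGroup.coe_mul]
    show !![(0 : F), 1; -1, 0] * !![a, b; b, -a] =
      !![-1, 0; 0, -1] * (!![a, b; b, -a] * !![(0 : F), 1; -1, 0])
    rw [Matrix.mul_fin_two, Matrix.mul_fin_two, Matrix.mul_fin_two]
    ext x y
    fin_cases x <;> fin_cases y <;> simp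
  have hwi : w * i = j * w := by
    apply ext2
    rw [Matrix.SpecialLinearGroup.coe_mul, Matrix.SpecialLinearGroup.coe_mul]
    show !![t * (1 + a + b), t * (1 + b - a); t * (-1 + b - a), t * (1 - a - b)] *
        !![(0 : F), 1; -1, 0] =
      !![a, b; b, -a] * !![t * (1 + a + b), t * (1 + b - a); t * (-1 + b - a), t * (1 - a - b)]
    rw [Matrix.mul_fin_two, Matrix.mul_fin_two]
    ext x y
    fin_cases x <;> fin_cases y <;> simp
    · linear_combination (-t) * hab
    · linear_combination t * hab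
    · linear_combination (-t) * hab
    · linear_combination (-t) * hab
  have hwj : w * j = i * j * w := by
    apply ext2
    rw [Matrix.SpecialLinearGroup.coe_mul, Matrix.SpecialLinearGroup.coe_mul,
      Matrix.SpecialLinearGroup.coe_mul]
    show !![t * (1 + a + b), t * (1 + b - a); t * (-1 + b - a), t * (1 - a - b)] *
        !![a, b; b, -a] =
      !![(0 : F), 1; -1, 0] * !![a, b; b, -a] *
        !![t * (1 + a + b), t * (1 + b - a); t * (-1 + b - a), t * (1 - a - b)]
    rw [Matrix.mul_fin_two, Matrix.mul_fin_two, Matrix.mul_fin_two]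
    ext x y
    fin_cases x <;> fin_cases y <;> simp
    · ring
    · ring
    · ring
    · ring
  have hn1 : (QuotientGroup.mk n : PSL(2, F)) = 1 := (QuotientGroup.eq_one_iff n).mpr hn
  refine ⟨1, QuotientGroup.mk i, ?_, ?_⟩
  · intro h
    have h1 := sim_conj h2 h
    rw [isConj_one_right, QuotientGroup.eq_one_iff, Matrix.SpecialLinearGroup.mem_center_iff] at h1
    obtain ⟨r, -, hr⟩ := h1
    have h3 := congrFun (congrFun hr 0) 1
    simp [i] at h3
  · intro χ hχ
    refine congr_of_klein (i := QuotientGroup.mk i) (j := QuotientGroup.mk j)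
      (w := QuotientGroup.mk w) ?_ ?_ ?_ ?_ ?_ hχ
    · rw [← QuotientGroup.mk_mul, hii, hn1]
    · rw [← QuotientGroup.mk_mul, hjj, hn1]
    · rw [← QuotientGroup.mk_mul, hij, QuotientGroup.mk_mul, hn1, one_mul, QuotientGroup.mk_mul]
    · rw [mul_inv_eq_iff_eq_mul, ← QuotientGroup.mk_mul, hwi, QuotientGroup.mk_mul]
    · rw [mul_inv_eq_iff_eq_mul, ← QuotientGroup.mk_mul, hwj, QuotientGroup.mk_mul,
        QuotientGroup.mk_mul]

end Pool.Agent.Results.MP_cfb286_al.PSLTwoCounterexample
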